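import Mathlib

/-!
Laurent polynomials in `n` variables on the torus: evaluation, conjugation, the `L^2` norm, and the
averaging argument.
-/

set_option autoImplicit false

namespace Pool.Agent.Helper57.PT

open Finset AddMonoidAlgebra

variable {n : ℕ}

/-- Laurent polynomials. -/
abbrev Lau (n : ℕ) := AddMonoidAlgebra ℂ (Fin n → ℤ)

/-- The character `z ↦ z^γ`. -/
noncomputable def chr (z : Fin n → Circle) : Multiplicative (Fin n → ℤ) →* ℂ where
  toFun γ := ((∏ i, z i ^ (Multiplicative.toAdd γ i) : Circle) : ℂ)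
  map_one' := by simp
  map_mul' a b := by
    rw [toAdd_mul, ← Circle.coe_mul, ← Finset.prod_mul_distrib]
    simp only [Pi.add_apply, zpow_add]

/-- Evaluation at a point of the torus. -/
noncomputable def ev (z : Fin n → Circle) : Lau n →+* ℂ :=
  (AddMonoidAlgebra.lift ℂ ℂ (Fin n → ℤ) (chr z)).toRingHom

theorem ev_apply (z : Fin n → Circle) (a : Lau n) :
    ev z a = ∑ γ ∈ a.coeff.support, a.coeff γ * chr z (Multiplicative.ofAdd γ) := by
  unfold ev
  change AddMonoidAlgebra.lift ℂ ℂ (Fin n → ℤ) (chr z) a = _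
  rw [AddMonoidAlgebra.lift_apply, Finsupp.sum]
  simp only [smul_eq_mul]

theorem ev_single (z : Fin n → Circle) (γ : Fin n → ℤ) (c : ℂ) :
    ev z (AddMonoidAlgebra.single γ c) = c * chr z (Multiplicative.ofAdd γ) := by
  unfold ev
  change AddMonoidAlgebra.lift ℂ ℂ (Fin n → ℤ) (chr z) _ = _
  rw [AddMonoidAlgebra.lift_single, smul_eq_mul]

/-- Conjugation. -/
noncomputable def cj : Lau n →+* Lau n :=
  (mapRingHom (Fin n → ℤ) (starRingEnd ℂ)).comp
    (mapDomainRingHom ℂ (negAddMonoidHom : (Fin n → ℤ) →+ (Fin n → ℤ)))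

theorem cj_single (γ : Fin n → ℤ) (c : ℂ) :
    cj (AddMonoidAlgebra.single γ c) = AddMonoidAlgebra.single (-γ) (starRingEnd ℂ c) := by
  unfold cj
  rw [RingHom.comp_apply, mapDomainRingHom_apply, mapDomain_single, mapRingHom_single]
  rfl

theorem cj_coeff (a : Lau n) (γ : Fin n → ℤ) :
    (cj a).coeff γ = starRingEnd ℂ (a.coeff (-γ)) := by
  induction a using AddMonoidAlgebra.induction_linear with
  | zero => simp
  | add f g hf hg => rw [map_add, coeff_add, Finsupp.add_apply, hf, hg, coeff_add,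
      Finsupp.add_apply, map_add]
  | single m r =>
    rw [cj_single, coeff_single, coeff_single, Finsupp.single_apply, Finsupp.single_apply]
    by_cases h : -m = γ
    · rw [if_pos h, if_pos (by rw [← h, neg_neg])]
    · rw [if_neg h, if_neg (by intro h2; exact h (by rw [h2, neg_neg])), map_zero]

theorem cj_cj (a : Lau n) : cj (cj a) = a := by
  apply coeff_injective
  ext γ
  rw [cj_coeff, cj_coeff, neg_neg, Complex.conj_conj]

theorem chr_neg (z : Fin n → Circle) (γ : Fin n → ℤ) :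
    chr z (Multiplicative.ofAdd (-γ)) = starRingEnd ℂ (chr z (Multiplicative.ofAdd γ)) := by
  unfold chr
  simp only [MonoidHom.coe_mk, OneHom.coe_mk, toAdd_ofAdd, Pi.neg_apply, zpow_neg]
  rw [Finset.prod_inv_distrib, Circle.coe_inv_eq_conj]

theorem ev_cj (z : Fin n → Circle) (a : Lau n) : ev z (cj a) = starRingEnd ℂ (ev z a) := by
  induction a using AddMonoidAlgebra.induction_linear with
  | zero => simp
  | add f g hf hg => rw [map_add, map_add, hf, hg, map_add, map_add]
  | single m r => rw [cj_single, ev_single, ev_single, chr_neg, map_mul]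

/-- The square of the `L^2` norm. -/
noncomputable def N2 (a : Lau n) : ℝ := ∑ γ ∈ a.coeff.support, ‖a.coeff γ‖ ^ 2

theorem N2_nonneg (a : Lau n) : 0 ≤ N2 a := Finset.sum_nonneg (fun _ _ => by positivity)

/-- The inner product as a constant coefficient. -/
theorem coeff_mul_cj (a b : Lau n) :
    (a * cj b).coeff 0 = ∑ γ ∈ a.coeff.support, a.coeff γ * starRingEnd ℂ (b.coeff γ) := by
  rw [coeff_mul_apply_left, Finsupp.sum]
  apply Finset.sum_congr rfl
  intro γ _
  rw [cj_coeff, add_zero, neg_neg]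

theorem N2_eq (a : Lau n) : ((N2 a : ℝ) : ℂ) = (a * cj a).coeff 0 := by
  rw [coeff_mul_cj, N2]
  push_cast
  apply Finset.sum_congr rfl
  intro γ _
  rw [Complex.mul_conj, Complex.normSq_eq_norm_sq]
  push_cast
  rfl

/-- Conjugating a factor does not change the norm. -/
theorem N2_cj_mul (F G : Lau n) : N2 (cj F * G) = N2 (F * G) := by
  have h : ((N2 (cj F * G) : ℝ) : ℂ) = ((N2 (F * G) : ℝ) : ℂ) := by
    rw [N2_eq, N2_eq, map_mul, map_mul, cj_cj]
    congr 2
    ring
  exact_mod_cast h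

theorem sum_root {N : ℕ} (hN : 0 < N) (g : ℤ) (hg : |g| < N) :
    ∑ s : Fin N, ((Complex.exp (2 * Real.pi * Complex.I / N) ^ (s : ℕ)) ^ g : ℂ)
      = if g = 0 then (N : ℂ) else 0 := by
  have hprim := Complex.isPrimitiveRoot_exp N hN.ne'
  set ζ := Complex.exp (2 * Real.pi * Complex.I / N) with hζ
  have h1 : ∀ s : ℕ, (ζ ^ s) ^ g = (ζ ^ g) ^ s := by
    intro s
    rw [← zpow_natCast, ← zpow_natCast, ← zpow_mul, ← zpow_mul, mul_comm]
  rw [Finset.sum_congr rfl (fun (s : Fin N) _ => h1 s),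
    Fin.sum_univ_eq_sum_range (fun s => (ζ ^ g) ^ s) N]
  split_ifs with h0
  · subst h0; simp
  · have hne : ζ ^ g ≠ 1 := by
      intro h
      rw [hprim.zpow_eq_one_iff_dvd] at h
      exact h0 (Int.eq_zero_of_abs_lt_dvd h hg)
    have hpow : (ζ ^ g) ^ N = 1 := by
      rw [← zpow_natCast, ← zpow_mul, mul_comm, zpow_mul, zpow_natCast, hprim.pow_eq_one, one_zpow]
    have := mul_neg_geom_sum (ζ ^ g) N
    rw [hpow, sub_self] at this
    rcases mul_eq_zero.1 this with h | h
    · exact absurd (sub_eq_zero.1 h).symm hne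
    · exact h

/-- The averaging argument: a Laurent polynomial with nonnegative real part on the torus has
constant coefficient with nonnegative real part. -/
theorem coeff_zero_nonneg (a : Lau n) (h : ∀ z, 0 ≤ (ev z a).re) : 0 ≤ (a.coeff 0).re := by
  obtain ⟨N, hN, hlt⟩ : ∃ N : ℕ, 0 < N ∧ ∀ γ ∈ a.coeff.support, ∀ i, |γ i| < (N : ℤ) := by
    refine ⟨1 + ∑ γ ∈ a.coeff.support, ∑ i, (γ i).natAbs, by omega, ?_⟩
    intro γ hγ i
    have h1 : (γ i).natAbs ≤ ∑ i, (γ i).natAbs :=
      Finset.single_le_sum (f := fun i => (γ i).natAbs) (fun _ _ => Nat.zero_le _) (mem_univ i)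
    have h2 : ∑ i, (γ i).natAbs ≤ ∑ γ ∈ a.coeff.support, ∑ i, (γ i).natAbs :=
      Finset.single_le_sum (f := fun γ : Fin n → ℤ => ∑ i, (γ i).natAbs)
        (fun _ _ => Nat.zero_le _) hγ
    rw [Int.abs_eq_natAbs]
    exact_mod_cast (by omega : (γ i).natAbs < 1 + ∑ γ ∈ a.coeff.support, ∑ i, (γ i).natAbs)
  set w : Circle := Circle.exp (2 * Real.pi / N) with hw
  have hwc : (w : ℂ) = Complex.exp (2 * Real.pi * Complex.I / N) := by
    rw [hw, Circle.coe_exp]
    congr 1
    push_cast
    ring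
  have key : ∀ γ ∈ a.coeff.support, ∑ t : Fin n → Fin N,
      chr (fun i => w ^ (t i : ℕ)) (Multiplicative.ofAdd γ) = if γ = 0 then (N : ℂ) ^ n else 0 := by
    intro γ hγ
    have h1 : ∀ t : Fin n → Fin N, chr (fun i => w ^ (t i : ℕ)) (Multiplicative.ofAdd γ)
        = ∏ i, ((Complex.exp (2 * Real.pi * Complex.I / N) ^ (t i : ℕ)) ^ (γ i) : ℂ) := by
      intro t
      unfold chr
      simp only [MonoidHom.coe_mk, OneHom.coe_mk, toAdd_ofAdd]
      rw [← hwc]
      have h2 := map_prod Circle.coeHom (fun i => (w ^ (t i : ℕ)) ^ γ i) univ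
      refine h2.trans ?_
      apply Finset.prod_congr rfl
      intro i _
      rw [map_zpow', map_pow]
      · rfl
      · intro x
        exact Circle.coe_inv x
    rw [Finset.sum_congr rfl (fun t _ => h1 t)]
    rw [← Fintype.piFinset_univ, ← Finset.prod_univ_sum (fun _ => univ)
      (fun i (s : Fin N) => ((Complex.exp (2 * Real.pi * Complex.I / N) ^ (s : ℕ)) ^ (γ i) : ℂ))]
    rw [Finset.prod_congr rfl (fun i _ => sum_root hN (γ i) (hlt γ hγ i))]
    split_ifs with h0
    · subst h0; simp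
    · have : ∃ i, γ i ≠ 0 := by
        by_contra hc
        push Not at hc
        exact h0 (funext hc)
      obtain ⟨i, hi⟩ := this
      exact Finset.prod_eq_zero (mem_univ i) (if_neg hi)
  have hsum : ∑ t : Fin n → Fin N, ev (fun i => w ^ (t i : ℕ)) a = (N : ℂ) ^ n * a.coeff 0 := by
    simp only [ev_apply]
    rw [Finset.sum_comm]
    simp only [← Finset.mul_sum]
    rw [Finset.sum_congr rfl (fun γ hγ => by rw [key γ hγ])]
    simp only [mul_ite, mul_zero]
    rw [Finset.sum_ite_eq']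
    split_ifs with h0
    · ring
    · rw [Finsupp.notMem_support_iff.1 h0]; ring
  have hre : (∑ t : Fin n → Fin N, ev (fun i => w ^ (t i : ℕ)) a).re = (N : ℝ) ^ n * (a.coeff 0).re := by
    rw [hsum]
    have : ((N : ℂ) ^ n) = (((N : ℝ) ^ n : ℝ) : ℂ) := by push_cast; rfl
    rw [this, Complex.re_ofReal_mul]
  rw [Complex.re_sum] at hre
  have hpos : 0 ≤ (N : ℝ) ^ n * (a.coeff 0).re := by
    rw [← hre]
    exact Finset.sum_nonneg (fun t _ => h _)
  have hNn : (0 : ℝ) < (N : ℝ) ^ n := by positivity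
  exact nonneg_of_mul_nonneg_right hpos hNn

/-- The sup norm bound for products. -/
theorem N2_mul_le (F G : Lau n) (T : ℝ) (hF : ∀ z, ‖ev z F‖ ≤ T) : N2 (F * G) ≤ T ^ 2 * N2 G := by
  have h := coeff_zero_nonneg (G * cj G * (AddMonoidAlgebra.single 0 ((T : ℂ) ^ 2) - F * cj F)) ?_
  · have e : G * cj G * (AddMonoidAlgebra.single 0 ((T : ℂ) ^ 2) - F * cj F)
        = AddMonoidAlgebra.single 0 ((T : ℂ) ^ 2) * (G * cj G) - (F * G) * cj (F * G) := by
      rw [map_mul]; ring
    rw [e, coeff_sub, Finsupp.sub_apply, ← N2_eq, coeff_single_mul_apply, neg_zero, zero_add,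
      ← N2_eq, Complex.sub_re, Complex.ofReal_re] at h
    have : (((T : ℂ) ^ 2) * ((N2 G : ℝ) : ℂ)).re = T ^ 2 * N2 G := by
      rw [← Complex.ofReal_pow, ← Complex.ofReal_mul, Complex.ofReal_re]
    rw [this] at h
    linarith
  · intro z
    rw [map_mul, map_mul, map_sub, map_mul, ev_cj, ev_cj, ev_single, Complex.mul_conj,
      Complex.mul_conj]
    have h1 : chr z (Multiplicative.ofAdd 0) = 1 := map_one _
    rw [h1, mul_one, ← Complex.ofReal_pow, ← Complex.ofReal_sub, ← Complex.ofReal_mul,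
      Complex.ofReal_re]
    apply mul_nonneg (Complex.normSq_nonneg _)
    rw [Complex.normSq_eq_norm_sq]
    have h2 := hF z
    have h3 := norm_nonneg (ev z F)
    nlinarith

end Pool.Agent.Helper57.PT
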