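import Mathlib
import Pool.Agent.Helper57.PT.Alg

/-!
The key inequality: multiplication by a homogeneous polynomial on the Hardy space of the torus.
-/

set_option autoImplicit false

namespace Pool.Agent.Helper57.PT

open Finset AddMonoidAlgebra

variable {n : ℕ}

/-- Homogeneous of degree `k`, nonnegative exponents. -/
def Hm (k : ℕ) (a : Lau n) : Prop :=
  ∀ γ, a.coeff γ ≠ 0 → (∀ i, 0 ≤ γ i) ∧ ∑ i, γ i = (k : ℤ)

theorem Hm.mul {k l : ℕ} {a b : Lau n} (ha : Hm k a) (hb : Hm l b) : Hm (k + l) (a * b) := by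
  classical
  intro γ hγ
  have h1 := AddMonoidAlgebra.support_coeff_mul_subset a b (Finsupp.mem_support_iff.2 hγ)
  obtain ⟨x, hx, y, hy, rfl⟩ := Finset.mem_add.1 h1
  obtain ⟨h2, h3⟩ := ha x (Finsupp.mem_support_iff.1 hx)
  obtain ⟨h4, h5⟩ := hb y (Finsupp.mem_support_iff.1 hy)
  refine ⟨fun i => add_nonneg (h2 i) (h4 i), ?_⟩
  simp only [Pi.add_apply, Finset.sum_add_distrib, h3, h5]
  push_cast
  ring

theorem Hm_one : Hm 0 (1 : Lau n) := by
  intro γ hγ
  rw [AddMonoidAlgebra.one_def, coeff_single, Finsupp.single_apply] at hγ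
  split_ifs at hγ with h
  · subst h; simp
  · exact absurd rfl hγ

theorem Hm.pow {k : ℕ} {a : Lau n} (ha : Hm k a) (m : ℕ) : Hm (k * m) (a ^ m) := by
  induction m with
  | zero => simpa using Hm_one (n := n)
  | succ m ih =>
    rw [pow_succ]
    have := ih.mul ha
    rwa [← Nat.mul_succ] at this

/-- The exponent of a squarefree monomial. -/
def ind (E : Finset (Fin n)) : Fin n → ℤ := fun i => if i ∈ E then 1 else 0

theorem sum_ind (E : Finset (Fin n)) : ∑ i, ind E i = (E.card : ℤ) := by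
  unfold ind
  simp

theorem sum_le_N2 (X : Lau n) (C : Finset (Fin n → ℤ)) : ∑ γ ∈ C, ‖X.coeff γ‖ ^ 2 ≤ N2 X := by
  classical
  unfold N2
  have h1 : ∑ γ ∈ C, ‖X.coeff γ‖ ^ 2 = ∑ γ ∈ C ∩ X.coeff.support, ‖X.coeff γ‖ ^ 2 := by
    symm
    apply Finset.sum_subset inter_subset_left
    intro γ h1 h2
    have : γ ∉ X.coeff.support := fun h => h2 (mem_inter.2 ⟨h1, h⟩)
    rw [Finsupp.notMem_support_iff.1 this]
    simp
  rw [h1]
  exact Finset.sum_le_sum_of_subset_of_nonneg inter_subset_right (fun _ _ _ => by positivity)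

/-- The coefficient of `conj(F) G` at an exponent with `k` negative entries. -/
theorem coeff_low {k : ℕ} {F G : Lau n} (hF : Hm k F) (hG : ∀ γ, G.coeff γ ≠ 0 → ∀ i, 0 ≤ γ i)
    (E : Finset (Fin n)) (hE : E.card = k) (β : Fin n → ℤ) (hβ : ∀ i ∈ E, β i = 0) :
    (cj F * G).coeff (β - ind E) = starRingEnd ℂ (F.coeff (ind E)) * G.coeff β := by
  classical
  rw [coeff_mul_apply_left, Finsupp.sum]
  rw [Finset.sum_eq_single (-ind E)]
  · rw [cj_coeff, neg_neg]
    congr 2
    simp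
  · intro γ hγ hne
    rw [cj_coeff]
    by_contra hc
    have h1 : F.coeff (-γ) ≠ 0 := by
      intro h; rw [h] at hc; simp at hc
    have h2 : G.coeff (-γ + (β - ind E)) ≠ 0 := by
      intro h; rw [h] at hc; simp at hc
    obtain ⟨h3, h4⟩ := hF _ h1
    have h5 := hG _ h2
    have h6 : ∀ i, ind E i ≤ (-γ) i := by
      intro i
      unfold ind
      split_ifs with hi
      · have h7 := h5 i
        simp only [Pi.add_apply, Pi.sub_apply, ind, if_pos hi, hβ i hi] at h7
        linarith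
      · exact h3 i
    have h8 : ∑ i, ((-γ) i - ind E i) = 0 := by
      rw [Finset.sum_sub_distrib, h4, sum_ind, hE, sub_self]
    have h9 := (Finset.sum_eq_zero_iff_of_nonneg (fun i _ => sub_nonneg.2 (h6 i))).1 h8
    apply hne
    funext i
    have := h9 i (mem_univ i)
    simp only [Pi.neg_apply] at this ⊢
    linarith
  · intro h
    rw [Finsupp.notMem_support_iff.1 h, zero_mul]

/-- The lower part of the norm. -/
noncomputable def low (k : ℕ) (F G : Lau n) : ℝ :=
  ∑ β ∈ G.coeff.support, ‖G.coeff β‖ ^ 2 *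
    ∑ E ∈ (univ : Finset (Finset (Fin n))).filter (fun E => E.card = k ∧ ∀ i ∈ E, β i = 0),
      ‖F.coeff (ind E)‖ ^ 2

theorem key {k K : ℕ} (hk : 1 ≤ k) {F G H : Lau n} (hF : Hm k F) (hG : Hm K G)
    (hH : ∀ γ, H.coeff γ ≠ 0 → ∀ i, 0 ≤ γ i) :
    ‖(G * cj (F * H)).coeff 0‖ ^ 2 + low k F G * N2 H ≤ N2 (F * G) * N2 H := by
  classical
  set X := cj F * G with hX
  have hG' : ∀ γ, G.coeff γ ≠ 0 → ∀ i, 0 ≤ γ i := fun γ h => (hG γ h).1
  -- the lower part
  set P := ((univ : Finset (Finset (Fin n))) ×ˢ G.coeff.support).filter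
    (fun p => p.1.card = k ∧ ∀ i ∈ p.1, p.2 i = 0) with hP
  set B := P.image (fun p => p.2 - ind p.1) with hB
  have hPG : ∀ p ∈ P, G.coeff p.2 ≠ 0 := by
    intro p hp
    rw [hP, mem_filter, mem_product] at hp
    exact Finsupp.mem_support_iff.1 hp.1.2
  have hneg : ∀ p ∈ P, ∀ i, i ∈ p.1 ↔ (p.2 - ind p.1) i < 0 := by
    intro p hp i
    have h1 := hG' p.2 (hPG p hp) i
    rw [hP, mem_filter] at hp
    constructor
    · intro hi
      simp [ind, hi, hp.2.2 i hi]
    · intro hlt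
      by_contra hi
      simp only [Pi.sub_apply, ind, if_neg hi] at hlt
      linarith
  have hinj : Set.InjOn (fun p : Finset (Fin n) × (Fin n → ℤ) => p.2 - ind p.1) P := by
    intro p hp q hq hpq
    simp only at hpq
    have h1 : p.1 = q.1 := by
      ext i
      rw [hneg p hp i, hneg q hq i, hpq]
    have h2 : p.2 = q.2 := by
      have : p.2 - ind p.1 + ind p.1 = q.2 - ind q.1 + ind q.1 := by rw [hpq, h1]
      simpa using this
    exact Prod.ext h1 h2
  have hsumB : ∑ γ ∈ B, ‖X.coeff γ‖ ^ 2 = low k F G := by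
    rw [hB, Finset.sum_image hinj, low]
    rw [Finset.sum_congr rfl (g := fun p => ‖G.coeff p.2‖ ^ 2 * ‖F.coeff (ind p.1)‖ ^ 2)]
    · rw [hP, Finset.sum_filter, Finset.sum_product_right]
      apply Finset.sum_congr rfl
      intro β _
      rw [Finset.mul_sum, Finset.sum_filter]
    · intro p hp
      rw [hP, mem_filter] at hp
      rw [hX, coeff_low hF hG' p.1 hp.2.1 p.2 hp.2.2, norm_mul, RCLike.norm_conj]
      ring
  -- disjointness
  have hdisj : Disjoint H.coeff.support B := by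
    rw [Finset.disjoint_left]
    intro γ hγ hγB
    rw [hB, mem_image] at hγB
    obtain ⟨p, hp, rfl⟩ := hγB
    have hne : p.1.Nonempty := by
      rw [hP, mem_filter] at hp
      rw [← Finset.card_pos]
      omega
    obtain ⟨i, hi⟩ := hne
    have h1 := (hneg p hp i).1 hi
    have h2 := hH _ (Finsupp.mem_support_iff.1 hγ) i
    linarith
  have hle : ∑ γ ∈ H.coeff.support, ‖X.coeff γ‖ ^ 2 + low k F G ≤ N2 (F * G) := by
    rw [← hsumB, ← Finset.sum_union hdisj, ← N2_cj_mul]
    exact sum_le_N2 _ _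
  -- Cauchy-Schwarz
  have hinner : (G * cj (F * H)).coeff 0
      = ∑ γ ∈ H.coeff.support, X.coeff γ * starRingEnd ℂ (H.coeff γ) := by
    have h1 : G * cj (F * H) = X * cj H := by rw [hX, map_mul]; ring
    rw [h1, coeff_mul_cj]
    have h2 : ∑ γ ∈ X.coeff.support, X.coeff γ * starRingEnd ℂ (H.coeff γ)
        = ∑ γ ∈ X.coeff.support ∪ H.coeff.support, X.coeff γ * starRingEnd ℂ (H.coeff γ) := by
      apply Finset.sum_subset subset_union_left
      intro γ _ h
      rw [Finsupp.notMem_support_iff.1 h, zero_mul]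
    have h3 : ∑ γ ∈ H.coeff.support, X.coeff γ * starRingEnd ℂ (H.coeff γ)
        = ∑ γ ∈ X.coeff.support ∪ H.coeff.support, X.coeff γ * starRingEnd ℂ (H.coeff γ) := by
      apply Finset.sum_subset subset_union_right
      intro γ _ h
      rw [Finsupp.notMem_support_iff.1 h, map_zero, mul_zero]
    rw [h2, h3]
  have hcs : ‖(G * cj (F * H)).coeff 0‖ ^ 2
      ≤ (∑ γ ∈ H.coeff.support, ‖X.coeff γ‖ ^ 2) * N2 H := by
    have h1 : ‖(G * cj (F * H)).coeff 0‖ ≤ ∑ γ ∈ H.coeff.support, ‖X.coeff γ‖ * ‖H.coeff γ‖ := by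
      rw [hinner]
      refine (norm_sum_le _ _).trans (le_of_eq ?_)
      apply Finset.sum_congr rfl
      intro γ _
      rw [norm_mul, RCLike.norm_conj]
    calc ‖(G * cj (F * H)).coeff 0‖ ^ 2
        ≤ (∑ γ ∈ H.coeff.support, ‖X.coeff γ‖ * ‖H.coeff γ‖) ^ 2 :=
          pow_le_pow_left₀ (norm_nonneg _) h1 2
      _ ≤ _ := Finset.sum_mul_sq_le_sq_mul_sq _ _ _
  have hH0 := N2_nonneg H
  nlinarith

/-- The lower part is large when the influences are small. -/
theorem low_ge {k K : ℕ} {F G : Lau n} (hG : Hm K G) {V τ : ℝ} (hτ0 : 0 ≤ τ)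
    (hV : V ≤ ∑ E ∈ (univ : Finset (Finset (Fin n))).filter (fun E => E.card = k),
      ‖F.coeff (ind E)‖ ^ 2)
    (hτ : ∀ i, ∑ E ∈ (univ : Finset (Finset (Fin n))).filter (fun E => E.card = k ∧ i ∈ E),
      ‖F.coeff (ind E)‖ ^ 2 ≤ τ) :
    (V - τ * K) * N2 G ≤ low k F G := by
  classical
  unfold low N2
  rw [Finset.mul_sum]
  apply Finset.sum_le_sum
  intro β hβ
  rw [mul_comm]
  apply mul_le_mul_of_nonneg_left _ (by positivity)
  obtain ⟨h1, h2⟩ := hG β (Finsupp.mem_support_iff.1 hβ)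
  set Z := (univ : Finset (Fin n)).filter (fun i => β i ≠ 0) with hZ
  have hcard : (Z.card : ℤ) ≤ K := by
    rw [← h2]
    calc (Z.card : ℤ) = ∑ i ∈ Z, 1 := by simp
      _ ≤ ∑ i ∈ Z, β i := by
        apply Finset.sum_le_sum
        intro i hi
        have h3 := h1 i
        have h4 : β i ≠ 0 := (mem_filter.1 hi).2
        omega
      _ ≤ ∑ i, β i := Finset.sum_le_sum_of_subset_of_nonneg (subset_univ _) (fun i _ _ => h1 i)
  have hsub : ∑ E ∈ (univ : Finset (Finset (Fin n))).filter (fun E => E.card = k),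
      ‖F.coeff (ind E)‖ ^ 2
      ≤ ∑ E ∈ (univ : Finset (Finset (Fin n))).filter (fun E => E.card = k ∧ ∀ i ∈ E, β i = 0),
        ‖F.coeff (ind E)‖ ^ 2
      + ∑ i ∈ Z, ∑ E ∈ (univ : Finset (Finset (Fin n))).filter (fun E => E.card = k ∧ i ∈ E),
        ‖F.coeff (ind E)‖ ^ 2 := by
    simp only [Finset.sum_filter]
    rw [Finset.sum_comm, ← Finset.sum_add_distrib]
    apply Finset.sum_le_sum
    intro E _
    by_cases hE : E.card = k
    · simp only [hE, true_and, if_true]
      by_cases hz : ∀ i ∈ E, β i = 0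
      · rw [if_pos hz]
        have : 0 ≤ ∑ i ∈ Z, (if i ∈ E then ‖F.coeff (ind E)‖ ^ 2 else 0) :=
          Finset.sum_nonneg (fun i _ => by split_ifs <;> positivity)
        linarith
      · rw [if_neg hz, zero_add]
        push Not at hz
        obtain ⟨i, hi, hi2⟩ := hz
        have h3 := Finset.single_le_sum (f := fun i => if i ∈ E then ‖F.coeff (ind E)‖ ^ 2 else 0)
          (s := Z) (fun i _ => by split_ifs <;> positivity) (mem_filter.2 ⟨mem_univ i, hi2⟩)
        simp only [if_pos hi] at h3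
        exact h3
    · simp [hE]
  have hsum : ∑ i ∈ Z, ∑ E ∈ (univ : Finset (Finset (Fin n))).filter (fun E => E.card = k ∧ i ∈ E),
        ‖F.coeff (ind E)‖ ^ 2 ≤ Z.card * τ := by
    have := Finset.sum_le_card_nsmul Z (fun i => ∑ E ∈ (univ : Finset (Finset (Fin n))).filter
      (fun E => E.card = k ∧ i ∈ E), ‖F.coeff (ind E)‖ ^ 2) τ (fun i _ => hτ i)
    rwa [nsmul_eq_mul] at this
  have hcard' : (Z.card : ℝ) ≤ K := by exact_mod_cast hcard
  have := mul_le_mul_of_nonneg_right hcard' hτ0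
  linarith

/-- The recursion for the moments. -/
theorem chain (A : ℕ → ℝ) (h0 : A 0 = 1) (V c U : ℝ) (hV : 0 < V) (hc : 0 < c)
    (h1 : V ≤ A 1)
    (hrec : ∀ m : ℕ, A (m + 1) ^ 2 + (V - c * (m + 1)) * A (m + 1) * A m ≤ A (m + 2) * A m)
    (hU : ∀ m, A (m + 1) ≤ U * A m) : V ^ 2 ≤ 2 * c * U := by
  have claim : ∀ m : ℕ, (m : ℝ) * c ≤ V → 0 < A m ∧ ((m : ℝ) + 1) * (V - c * m / 2) * A m ≤ A (m + 1) := by
    intro m
    induction m with
    | zero =>
      intro _
      rw [h0]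
      refine ⟨one_pos, ?_⟩
      simpa using h1
    | succ m ih =>
      intro hm
      push_cast at hm
      obtain ⟨h2, h3⟩ := ih (by nlinarith)
      have h4 : 0 < V - c * m / 2 := by nlinarith
      have h5 : 0 < A (m + 1) := by
        refine lt_of_lt_of_le ?_ h3
        positivity
      refine ⟨h5, ?_⟩
      have h6 := hrec m
      have h7 : A (m + 1) * ((((m : ℝ) + 1) * (V - c * m / 2) * A m)
          + (V - c * (m + 1)) * A m) ≤ A (m + 2) * A m := by
        nlinarith [mul_le_mul_of_nonneg_left h3 h5.le]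
      have h8 : (((m + 1 : ℕ) : ℝ) + 1) * (V - c * ((m + 1 : ℕ) : ℝ) / 2) * A (m + 1) * A m
          = A (m + 1) * ((((m : ℝ) + 1) * (V - c * m / 2) * A m)
          + (V - c * (m + 1)) * A m) := by
        push_cast
        ring
      rw [← h8] at h7
      exact le_of_mul_le_mul_right h7 h2
  set m := ⌊V / c⌋₊ with hm
  have hm1 : (m : ℝ) * c ≤ V := by
    have := Nat.floor_le (div_nonneg hV.le hc.le)
    rwa [le_div_iff₀ hc] at this
  have hm2 : V < ((m : ℝ) + 1) * c := by
    have := Nat.lt_floor_add_one (V / c)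
    rwa [div_lt_iff₀ hc] at this
  obtain ⟨h2, h3⟩ := claim m hm1
  have h4 := hU m
  have h5 : ((m : ℝ) + 1) * (V - c * m / 2) ≤ U := by
    have := h3.trans h4
    exact le_of_mul_le_mul_right this h2
  nlinarith

/-- The inequality for homogeneous polynomials. -/
theorem homog {k : ℕ} (hk : 1 ≤ k) {F : Lau n} (hF : Hm k F) {T V τ : ℝ}
    (hT : ∀ z, ‖ev z F‖ ≤ T) (hτ0 : 0 ≤ τ)
    (hV : V ≤ ∑ E ∈ (univ : Finset (Finset (Fin n))).filter (fun E => E.card = k),
      ‖F.coeff (ind E)‖ ^ 2) (hV0 : 0 ≤ V)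
    (hτ : ∀ i, ∑ E ∈ (univ : Finset (Finset (Fin n))).filter (fun E => E.card = k ∧ i ∈ E),
      ‖F.coeff (ind E)‖ ^ 2 ≤ τ) :
    V ^ 2 ≤ 2 * k * τ * T ^ 2 := by
  classical
  have hk0 : (0 : ℝ) < k := by exact_mod_cast hk
  -- the recursion holds for every `τ' ≥ τ`
  have main : ∀ τ' : ℝ, τ ≤ τ' → 0 < τ' → 0 < V → V ^ 2 ≤ 2 * k * τ' * T ^ 2 := by
    intro τ' hle hpos hVpos
    have hτ' : ∀ i, ∑ E ∈ (univ : Finset (Finset (Fin n))).filter (fun E => E.card = k ∧ i ∈ E),
      ‖F.coeff (ind E)‖ ^ 2 ≤ τ' := fun i => (hτ i).trans hle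
    have h0 : N2 (F ^ 0) = 1 := by
      rw [pow_zero]
      have : ((N2 (1 : Lau n) : ℝ) : ℂ) = 1 := by
        rw [N2_eq, map_one, mul_one, AddMonoidAlgebra.one_def, coeff_single, Finsupp.single_eq_same]
      exact_mod_cast this
    have h1 : V ≤ N2 (F ^ 1) := by
      rw [pow_one]
      refine hV.trans ?_
      have hinj : Set.InjOn (fun E : Finset (Fin n) => ind E)
          ((univ : Finset (Finset (Fin n))).filter (fun E => E.card = k)) := by
        intro E _ E' _ h
        ext i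
        have := congrFun h i
        simp only [ind] at this
        by_cases h1 : i ∈ E <;> by_cases h2 : i ∈ E' <;> simp_all
      have := sum_le_N2 F (((univ : Finset (Finset (Fin n))).filter (fun E => E.card = k)).image
        (fun E => ind E))
      rwa [Finset.sum_image hinj] at this
    have hrec : ∀ m : ℕ, N2 (F ^ (m + 1)) ^ 2
        + (V - (k * τ') * (m + 1)) * N2 (F ^ (m + 1)) * N2 (F ^ m)
        ≤ N2 (F ^ (m + 2)) * N2 (F ^ m) := by
      intro m
      have hG : Hm (k * (m + 1)) (F ^ (m + 1)) := hF.pow (m + 1)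
      have hH : ∀ γ, (F ^ m).coeff γ ≠ 0 → ∀ i, 0 ≤ γ i := fun γ h => (hF.pow m γ h).1
      have h2 := key hk hF hG hH
      have h3 : F * F ^ m = F ^ (m + 1) := by ring
      have h4 : F * F ^ (m + 1) = F ^ (m + 2) := by ring
      rw [h3, h4, ← N2_eq, Complex.norm_real, Real.norm_eq_abs, sq_abs] at h2
      have h5 := low_ge hG hpos.le hV hτ'
      have h6 := mul_le_mul_of_nonneg_right h5 (N2_nonneg (F ^ m))
      push_cast at h6
      have h7 : (V - τ' * (k * ((m : ℝ) + 1))) = V - (k * τ') * (m + 1) := by ring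
      rw [h7] at h6
      linarith
    have hU : ∀ m : ℕ, N2 (F ^ (m + 1)) ≤ T ^ 2 * N2 (F ^ m) := by
      intro m
      have h3 : F ^ (m + 1) = F * F ^ m := by ring
      rw [h3]
      exact N2_mul_le F (F ^ m) T hT
    have := chain (fun m => N2 (F ^ m)) h0 V (k * τ') (T ^ 2) hVpos (by positivity) h1 hrec hU
    linarith
  rcases hV0.eq_or_lt with h | hVpos
  · rw [← h, zero_pow (by norm_num)]; positivity
  · rcases hτ0.eq_or_lt with h | hτpos
    · -- `τ = 0`: let `τ'` tend to `0`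
      by_contra hcon
      push Not at hcon
      rw [← h] at hcon
      have hV2 : 0 < V ^ 2 := by positivity
      have hT2 : 0 ≤ 2 * (k : ℝ) * T ^ 2 := by positivity
      set τ' := V ^ 2 / (2 * (2 * (k : ℝ) * T ^ 2 + 1)) with hτ'
      have hτ'pos : 0 < τ' := by positivity
      have h2 := main τ' (by rw [← h]; exact hτ'pos.le) hτ'pos hVpos
      have h3 : τ' * (2 * (2 * (k : ℝ) * T ^ 2 + 1)) = V ^ 2 := by
        rw [hτ']
        field_simp
      nlinarith
    · exact main τ le_rfl hτpos hVpos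

end Pool.Agent.Helper57.PT
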