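import Mathlib
import Pool.Agent.Helper57.PT.Key
import Pool.Agent.Helper11.AADefs

/-!
The Aaronson-Ambainis inequality for the multilinear part of a polynomial bounded on the torus.
-/

set_option autoImplicit false

namespace Pool.Agent.Helper57.PT

open Finset AddMonoidAlgebra Pool.Agent.Helper11.AA Pool.Agent.Helper11.Cube

variable {n : ℕ}

/-- The set of all `k ≥ 1` such that `f` has a nonzero Fourier coefficient at a set of `k`
coordinates. -/
noncomputable def levels (f : (Fin n → ℤˣ) → ℝ) : Finset ℕ :=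
  ((univ : Finset (Finset (Fin n))).filter (fun S => S.Nonempty ∧ fourierCoeff f S ≠ 0)).image
    Finset.card

theorem fourierCoeff_eq (f : (Fin n → ℤˣ) → ℝ) (S : Finset (Fin n)) :
    fourierCoeff f S = coef f S := rfl

/-- Extraction of one homogeneous part by rotations. -/
theorem rot (A : ℕ → ℂ) (N : ℕ) (T : ℝ)
    (hP : ∀ w : Circle, ‖∑ j ∈ range N, (w : ℂ) ^ j * A j‖ ≤ T) (k : ℕ) (hk : k < N) :
    ‖A k‖ ≤ T := by
  have hN : 0 < N := by omega
  have hNr : (0 : ℝ) < N := by exact_mod_cast hN
  set w : Circle := Circle.exp (2 * Real.pi / N) with hw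
  have hwc : (w : ℂ) = Complex.exp (2 * Real.pi * Complex.I / N) := by
    rw [hw, Circle.coe_exp]
    congr 1
    push_cast
    ring
  have hw0 : (w : ℂ) ≠ 0 := Circle.coe_ne_zero w
  have h1 : ∑ t : Fin N, ((w : ℂ) ^ (t : ℕ)) ^ (-(k : ℤ)) *
      ∑ j ∈ range N, (((w ^ (t : ℕ) : Circle) : ℂ)) ^ j * A j = N * A k := by
    have h2 : ∀ t : Fin N, ((w : ℂ) ^ (t : ℕ)) ^ (-(k : ℤ)) *
      ∑ j ∈ range N, (((w ^ (t : ℕ) : Circle) : ℂ)) ^ j * A j
        = ∑ j ∈ range N, ((w : ℂ) ^ (t : ℕ)) ^ ((j : ℤ) - k) * A j := by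
      intro t
      rw [Finset.mul_sum]
      apply Finset.sum_congr rfl
      intro j _
      rw [← mul_assoc]
      congr 1
      have h3 : ((w ^ (t : ℕ) : Circle) : ℂ) = (w : ℂ) ^ (t : ℕ) := rfl
      rw [h3, ← zpow_natCast ((w : ℂ) ^ (t : ℕ)) j, ← zpow_add₀ (pow_ne_zero _ hw0)]
      congr 1
      ring
    rw [Finset.sum_congr rfl (fun t _ => h2 t), Finset.sum_comm]
    have h4 : ∀ j ∈ range N, ∑ t : Fin N, ((w : ℂ) ^ (t : ℕ)) ^ ((j : ℤ) - k) * A j
        = if j = k then (N : ℂ) * A j else 0 := by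
      intro j hj
      rw [← Finset.sum_mul, hwc, sum_root hN]
      · by_cases hjk : j = k
        · rw [if_pos (by rw [hjk]; ring), if_pos hjk]
        · rw [if_neg (by omega), if_neg hjk, zero_mul]
      · have := mem_range.1 hj
        rw [abs_lt]
        constructor <;> omega
    rw [Finset.sum_congr rfl h4, Finset.sum_ite_eq' (range N) k (fun j => (N : ℂ) * A j),
      if_pos (mem_range.2 hk)]
  have h5 : ‖(N : ℂ) * A k‖ ≤ N * T := by
    rw [← h1]
    refine (norm_sum_le _ _).trans ?_
    have h6 : ∀ t ∈ (univ : Finset (Fin N)), ‖((w : ℂ) ^ (t : ℕ)) ^ (-(k : ℤ)) *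
      ∑ j ∈ range N, (((w ^ (t : ℕ) : Circle) : ℂ)) ^ j * A j‖ ≤ T := by
      intro t _
      rw [norm_mul]
      have h7 : ‖((w : ℂ) ^ (t : ℕ)) ^ (-(k : ℤ))‖ = 1 := by
        rw [norm_zpow, norm_pow, Circle.norm_coe, one_pow, one_zpow]
      rw [h7, one_mul]
      exact hP _
    have := Finset.sum_le_card_nsmul univ _ T h6
    simpa using this
  rw [norm_mul, Complex.norm_natCast] at h5
  exact le_of_mul_le_mul_left h5 hNr

/-- The homogeneous part of degree `k` as a Laurent polynomial. -/
noncomputable def part (g : MvPolynomial (Fin n) ℂ) (k : ℕ) : Lau n :=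
  ∑ s ∈ g.support.filter (fun s => ∑ i, s i = k),
    AddMonoidAlgebra.single (fun i => (s i : ℤ)) (g.coeff s)

theorem part_coeff (g : MvPolynomial (Fin n) ℂ) (k : ℕ) (γ : Fin n → ℤ) :
    (part g k).coeff γ = ∑ s ∈ g.support.filter (fun s => ∑ i, s i = k),
      if (fun i => (s i : ℤ)) = γ then g.coeff s else 0 := by
  classical
  unfold part
  rw [coeff_sum, Finsupp.finsetSum_apply]
  apply Finset.sum_congr rfl
  intro s _
  rw [coeff_single, Finsupp.single_apply]

theorem part_Hm (g : MvPolynomial (Fin n) ℂ) (k : ℕ) : Hm k (part g k) := by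
  intro γ hγ
  rw [part_coeff] at hγ
  obtain ⟨s, hs, hne⟩ := Finset.exists_ne_zero_of_sum_ne_zero hγ
  split_ifs at hne with h
  · subst h
    rw [mem_filter] at hs
    refine ⟨fun i => Int.natCast_nonneg _, ?_⟩
    rw [← hs.2]
    push_cast
    rfl
  · exact absurd rfl hne

theorem part_ind (g : MvPolynomial (Fin n) ℂ) (E : Finset (Fin n)) :
    (part g E.card).coeff (ind E) = g.coeff (Finsupp.indicator E (fun _ _ => 1)) := by
  classical
  rw [part_coeff]
  have hiff : ∀ s : Fin n →₀ ℕ, ((fun i => (s i : ℤ)) = ind E) ↔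
      s = Finsupp.indicator E (fun _ _ => 1) := by
    intro s
    constructor
    · intro h
      ext i
      have := congrFun h i
      simp only [ind] at this
      rw [Finsupp.indicator_apply]
      split_ifs with hi
      · rw [if_pos hi] at this
        exact_mod_cast this
      · rw [if_neg hi] at this
        exact_mod_cast this
    · rintro rfl
      funext i
      simp only [ind, Finsupp.indicator_apply]
      split_ifs <;> simp
  simp only [hiff]
  rw [Finset.sum_ite_eq']
  split_ifs with h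
  · rfl
  · rw [mem_filter, not_and_or] at h
    rcases h with h | h
    · exact (MvPolynomial.notMem_support_iff.1 h).symm
    · exfalso
      apply h
      simp [Finsupp.indicator_apply, Finset.sum_ite_mem]

theorem ev_part_bound (g : MvPolynomial (Fin n) ℂ) (T : ℝ)
    (hT : ∀ z : Fin n → ℂ, (∀ i, ‖z i‖ = 1) → ‖MvPolynomial.eval z g‖ ≤ T) (k : ℕ)
    (z : Fin n → Circle) : ‖ev z (part g k)‖ ≤ T := by
  classical
  set N := k + 1 + ∑ s ∈ g.support, ∑ i, s i with hN
  refine rot (fun j => ev z (part g j)) N T ?_ k (by omega)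
  intro w
  have h1 : ∑ j ∈ range N, (w : ℂ) ^ j * ev z (part g j)
      = MvPolynomial.eval (fun i => ((w * z i : Circle) : ℂ)) g := by
    rw [MvPolynomial.eval_eq']
    have h2 : ∀ s ∈ g.support, g.coeff s * ∏ i, (((w * z i : Circle) : ℂ)) ^ (s i)
        = ∑ j ∈ range N, if ∑ i, s i = j then
            (w : ℂ) ^ j * (g.coeff s * chr z (Multiplicative.ofAdd (fun i => (s i : ℤ)))) else 0 := by
      intro s hs
      rw [Finset.sum_ite_eq, if_pos]
      · have h3 : chr z (Multiplicative.ofAdd (fun i => (s i : ℤ))) = ∏ i, (z i : ℂ) ^ (s i) := by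
          unfold chr
          simp only [MonoidHom.coe_mk, OneHom.coe_mk, toAdd_ofAdd, zpow_natCast]
          have h4 := map_prod Circle.coeHom (fun i => z i ^ (s i)) univ
          exact h4
        rw [h3]
        have h5 : ∏ i, (((w * z i : Circle) : ℂ)) ^ (s i) = (w : ℂ) ^ (∑ i, s i) *
            ∏ i, (z i : ℂ) ^ (s i) := by
          rw [← Finset.prod_pow_eq_pow_sum, ← Finset.prod_mul_distrib]
          apply Finset.prod_congr rfl
          intro i _
          rw [Circle.coe_mul, mul_pow]
        rw [h5]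
        ring
      · rw [mem_range, hN]
        have := Finset.single_le_sum (f := fun s : Fin n →₀ ℕ => ∑ i, s i)
          (fun _ _ => Nat.zero_le _) hs
        omega
    rw [Finset.sum_congr rfl h2, Finset.sum_comm]
    apply Finset.sum_congr rfl
    intro j _
    unfold part
    rw [map_sum, Finset.mul_sum, Finset.sum_filter]
    apply Finset.sum_congr rfl
    intro s _
    rw [ev_single]
  rw [h1]
  apply hT
  intro i
  exact Circle.norm_coe _

/-- **The Aaronson-Ambainis inequality on the torus.** -/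
theorem polytorus {d : ℕ} (f : (Fin n → ℤˣ) → ℝ) (hd : DegreeAtMost f d)
    (g : MvPolynomial (Fin n) ℂ) (T : ℝ)
    (hg : ∀ S : Finset (Fin n), S.Nonempty →
      g.coeff (Finsupp.indicator S (fun _ _ => 1)) = ((fourierCoeff f S : ℝ) : ℂ))
    (hT : ∀ z : Fin n → ℂ, (∀ i, ‖z i‖ = 1) → ‖MvPolynomial.eval z g‖ ≤ T) :
    variance f ≤ ((levels f).card : ℝ) * Real.sqrt (2 * d) * T * maxDerivNorm f := by
  classical
  set M := maxDerivNorm f with hM
  have hM0 : 0 ≤ M := maxDerivNorm_nonneg f
  have hT0 : 0 ≤ T := (norm_nonneg _).trans (hT (fun _ => 1) (fun _ => by simp))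
  have hdeg := (degreeAtMost_iff f d).1 hd
  have hlev : ∀ k ∈ levels f, ∑ E ∈ (univ : Finset (Finset (Fin n))).filter (fun E => E.card = k),
      coef f E ^ 2 ≤ Real.sqrt (2 * d) * T * M := by
    intro k hk
    obtain ⟨S, hS, hcard⟩ := mem_image.1 hk
    rw [mem_filter] at hS
    have hk1 : 1 ≤ k := by
      rw [← hcard]
      exact Finset.card_pos.2 hS.2.1
    have hkd : k ≤ d := by
      by_contra h
      push Not at h
      exact hS.2.2 (by rw [fourierCoeff_eq]; exact hdeg S (by omega))
    have hco : ∀ E : Finset (Fin n), E.card = k → ‖(part g k).coeff (ind E)‖ ^ 2 = coef f E ^ 2 := by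
      intro E hE
      have hne : E.Nonempty := by rw [← Finset.card_pos]; omega
      have := part_ind g E
      rw [hE, hg E hne, fourierCoeff_eq] at this
      rw [this, Complex.norm_real, Real.norm_eq_abs, sq_abs]
    have h1 := homog (V := ∑ E ∈ (univ : Finset (Finset (Fin n))).filter (fun E => E.card = k),
      coef f E ^ 2) (τ := M ^ 2) hk1 (part_Hm g k) (ev_part_bound g T hT k) (by positivity)
      (le_of_eq (Finset.sum_congr rfl (fun E hE => (hco E (mem_filter.1 hE).2).symm)))
      (Finset.sum_nonneg (fun _ _ => by positivity)) ?_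
    · have h2 : (∑ E ∈ (univ : Finset (Finset (Fin n))).filter (fun E => E.card = k),
          coef f E ^ 2) ^ 2 ≤ (Real.sqrt (2 * d) * T * M) ^ 2 := by
        refine h1.trans ?_
        rw [mul_pow, mul_pow, Real.sq_sqrt (by positivity)]
        have h3 : (k : ℝ) ≤ d := by exact_mod_cast hkd
        have h4 : 0 ≤ T ^ 2 * M ^ 2 := by positivity
        nlinarith
      exact le_of_sq_le_sq h2 (by positivity)
    · intro i
      calc ∑ E ∈ (univ : Finset (Finset (Fin n))).filter (fun E => E.card = k ∧ i ∈ E),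
            ‖(part g k).coeff (ind E)‖ ^ 2
          = ∑ E ∈ (univ : Finset (Finset (Fin n))).filter (fun E => E.card = k ∧ i ∈ E),
            coef f E ^ 2 :=
            Finset.sum_congr rfl (fun E hE => hco E (mem_filter.1 hE).2.1)
        _ ≤ ∑ E ∈ (univ : Finset (Finset (Fin n))).filter (fun E => i ∈ E), coef f E ^ 2 := by
            apply Finset.sum_le_sum_of_subset_of_nonneg
            · intro E hE
              rw [mem_filter] at hE ⊢
              exact ⟨hE.1, hE.2.2⟩
            · intro _ _ _; positivity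
        _ = derivNorm i f ^ 2 := by rw [derivNorm_sq, ex_deriv_sq]
        _ ≤ M ^ 2 := pow_le_pow_left₀ (derivNorm_nonneg f i) (derivNorm_le f i) 2
  have hvar : variance f ≤ ∑ k ∈ levels f,
      ∑ E ∈ (univ : Finset (Finset (Fin n))).filter (fun E => E.card = k), coef f E ^ 2 := by
    rw [variance_eq_sum]
    simp only [Finset.sum_filter]
    rw [Finset.sum_comm]
    rw [← Finset.sum_erase_add _ _ (mem_univ (∅ : Finset (Fin n)))]
    refine le_trans ?_ (le_add_of_nonneg_right ?_)
    · apply Finset.sum_le_sum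
      intro S hS
      rw [Finset.sum_ite_eq]
      by_cases h0 : coef f S = 0
      · rw [h0]; split_ifs <;> simp
      · rw [if_pos]
        unfold levels
        refine mem_image.2 ⟨S, ?_, rfl⟩
        rw [mem_filter]
        refine ⟨mem_univ _, Finset.nonempty_iff_ne_empty.2 (Finset.ne_of_mem_erase hS), ?_⟩
        rw [fourierCoeff_eq]
        exact h0
    · exact Finset.sum_nonneg (fun k _ => by split_ifs <;> positivity)
  refine hvar.trans ?_
  refine (Finset.sum_le_card_nsmul _ _ _ hlev).trans (le_of_eq ?_)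
  rw [nsmul_eq_mul]
  ring

end Pool.Agent.Helper57.PT
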