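import Mathlib
import Pool.Agent.Helper57.PT.Final

/-!
The Aaronson-Ambainis inequality on the torus, level by level.
-/

set_option autoImplicit false

namespace Pool.Agent.Helper57.PT

open Finset AddMonoidAlgebra Pool.Agent.Helper11.AA Pool.Agent.Helper11.Cube

variable {n : ℕ}

/-- One level. -/
theorem level (f : (Fin n → ℤˣ) → ℝ) {k : ℕ} (hk1 : 1 ≤ k)
    (g : MvPolynomial (Fin n) ℂ) (T : ℝ)
    (hg : ∀ S : Finset (Fin n), S.card = k →
      g.coeff (Finsupp.indicator S (fun _ _ => 1)) = ((fourierCoeff f S : ℝ) : ℂ))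
    (hT : ∀ z : Fin n → ℂ, (∀ i, ‖z i‖ = 1) → ‖MvPolynomial.eval z g‖ ≤ T) :
    ∑ E ∈ (univ : Finset (Finset (Fin n))).filter (fun E => E.card = k), coef f E ^ 2
      ≤ Real.sqrt 2 * Real.sqrt k * T * maxDerivNorm f := by
  classical
  set M := maxDerivNorm f with hM
  have hM0 : 0 ≤ M := maxDerivNorm_nonneg f
  have hT0 : 0 ≤ T := (norm_nonneg _).trans (hT (fun _ => 1) (fun _ => by simp))
  have hco : ∀ E : Finset (Fin n), E.card = k → ‖(part g k).coeff (ind E)‖ ^ 2 = coef f E ^ 2 := by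
    intro E hE
    have := part_ind g E
    rw [hE, hg E hE, fourierCoeff_eq] at this
    rw [this, Complex.norm_real, Real.norm_eq_abs, sq_abs]
  have h1 := homog (V := ∑ E ∈ (univ : Finset (Finset (Fin n))).filter (fun E => E.card = k),
    coef f E ^ 2) (τ := M ^ 2) hk1 (part_Hm g k) (ev_part_bound g T hT k) (by positivity)
    (le_of_eq (Finset.sum_congr rfl (fun E hE => (hco E (mem_filter.1 hE).2).symm)))
    (Finset.sum_nonneg (fun _ _ => by positivity)) ?_
  · have h2 : (∑ E ∈ (univ : Finset (Finset (Fin n))).filter (fun E => E.card = k),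
        coef f E ^ 2) ^ 2 ≤ (Real.sqrt 2 * Real.sqrt k * T * M) ^ 2 := by
      refine h1.trans (le_of_eq ?_)
      rw [mul_pow, mul_pow, mul_pow, Real.sq_sqrt (by positivity), Real.sq_sqrt (by positivity)]
      ring
    exact le_of_sq_le_sq h2 (by positivity)
  · intro i
    calc ∑ E ∈ (univ : Finset (Finset (Fin n))).filter (fun E => E.card = k ∧ i ∈ E),
          ‖(part g k).coeff (ind E)‖ ^ 2
        = ∑ E ∈ (univ : Finset (Finset (Fin n))).filter (fun E => E.card = k ∧ i ∈ E),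
          coef f E ^ 2 :=
          Finset.sum_congr rfl (fun E hE => hco E (mem_filter.1 hE).2.1)
      _ ≤ ∑ E ∈ (univ : Finset (Finset (Fin n))).filter (fun E => i ∈ E), coef f E ^ 2 := by
          apply Finset.sum_le_sum_of_subset_of_nonneg
          · intro E hE
            rw [mem_filter] at hE ⊢
            exact ⟨hE.1, hE.2.2⟩
          · intro _ _ _; positivity
      _ = derivNorm i f ^ 2 := by rw [derivNorm_sq, ex_deriv_sq]
      _ ≤ M ^ 2 := pow_le_pow_left₀ (derivNorm_nonneg f i) (derivNorm_le f i) 2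

/-- All levels in a set `K`. -/
theorem levelSet (f : (Fin n → ℤˣ) → ℝ) (K : Finset ℕ) (hK : ∀ k ∈ K, 1 ≤ k)
    (g : MvPolynomial (Fin n) ℂ) (T : ℝ)
    (hg : ∀ S : Finset (Fin n), S.card ∈ K →
      g.coeff (Finsupp.indicator S (fun _ _ => 1)) = ((fourierCoeff f S : ℝ) : ℂ))
    (hT : ∀ z : Fin n → ℂ, (∀ i, ‖z i‖ = 1) → ‖MvPolynomial.eval z g‖ ≤ T) :
    ∑ S ∈ (univ : Finset (Finset (Fin n))).filter (fun S => S.card ∈ K), fourierCoeff f S ^ 2
      ≤ Real.sqrt 2 * (∑ k ∈ K, Real.sqrt k) * T * maxDerivNorm f := by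
  classical
  have h1 : ∑ S ∈ (univ : Finset (Finset (Fin n))).filter (fun S => S.card ∈ K),
      fourierCoeff f S ^ 2 = ∑ k ∈ K,
      ∑ E ∈ (univ : Finset (Finset (Fin n))).filter (fun E => E.card = k), coef f E ^ 2 := by
    simp only [Finset.sum_filter]
    rw [Finset.sum_comm]
    apply Finset.sum_congr rfl
    intro S _
    rw [Finset.sum_ite_eq]
    rfl
  rw [h1, Finset.mul_sum, Finset.sum_mul, Finset.sum_mul]
  apply Finset.sum_le_sum
  intro k hk
  exact level f (hK k hk) g T (fun S hS => hg S (by rw [hS]; exact hk)) hT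

/-- The variance. -/
theorem variance_levels {d : ℕ} (f : (Fin n → ℤˣ) → ℝ) (hd : DegreeAtMost f d)
    (g : MvPolynomial (Fin n) ℂ) (T : ℝ)
    (hg : ∀ S : Finset (Fin n), S.card ∈ Finset.Icc 1 d →
      g.coeff (Finsupp.indicator S (fun _ _ => 1)) = ((fourierCoeff f S : ℝ) : ℂ))
    (hT : ∀ z : Fin n → ℂ, (∀ i, ‖z i‖ = 1) → ‖MvPolynomial.eval z g‖ ≤ T) :
    variance f ≤ Real.sqrt 2 * (d : ℝ) ^ (3 / 2 : ℝ) * T * maxDerivNorm f := by
  classical
  have hM0 : 0 ≤ maxDerivNorm f := maxDerivNorm_nonneg f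
  have hT0 : 0 ≤ T := (norm_nonneg _).trans (hT (fun _ => 1) (fun _ => by simp))
  have hdeg := (degreeAtMost_iff f d).1 hd
  have h1 := levelSet f (Finset.Icc 1 d) (fun k hk => (Finset.mem_Icc.1 hk).1) g T hg hT
  have h2 : variance f ≤ ∑ S ∈ (univ : Finset (Finset (Fin n))).filter
      (fun S => S.card ∈ Finset.Icc 1 d), fourierCoeff f S ^ 2 := by
    rw [variance_eq_sum]
    rw [Finset.sum_filter]
    rw [← Finset.sum_erase_add _ _ (mem_univ (∅ : Finset (Fin n)))]
    refine le_trans ?_ (le_add_of_nonneg_right (by split_ifs <;> positivity))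
    apply Finset.sum_le_sum
    intro S hS
    rw [fourierCoeff_eq]
    by_cases h0 : coef f S = 0
    · rw [h0]; split_ifs <;> simp
    · rw [if_pos]
      rw [Finset.mem_Icc]
      constructor
      · exact Finset.card_pos.2 (Finset.nonempty_iff_ne_empty.2 (Finset.ne_of_mem_erase hS))
      · by_contra h
        push Not at h
        exact h0 (hdeg S h)
  have h3 : ∑ k ∈ Finset.Icc 1 d, Real.sqrt (k : ℝ) ≤ (d : ℝ) ^ (3 / 2 : ℝ) := by
    have h4 : ∑ k ∈ Finset.Icc 1 d, Real.sqrt (k : ℝ) ≤ ∑ _k ∈ Finset.Icc 1 d, Real.sqrt (d : ℝ) := by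
      apply Finset.sum_le_sum
      intro k hk
      apply Real.sqrt_le_sqrt
      exact_mod_cast (Finset.mem_Icc.1 hk).2
    refine h4.trans (le_of_eq ?_)
    rw [Finset.sum_const, Nat.card_Icc, nsmul_eq_mul, Real.sqrt_eq_rpow]
    rcases Nat.eq_zero_or_pos d with h0 | h0
    · subst h0; simp
    · have h5 : (0 : ℝ) < d := by exact_mod_cast h0
      have h6 : ((d + 1 - 1 : ℕ) : ℝ) = (d : ℝ) ^ (1 : ℝ) := by simp
      rw [h6, ← Real.rpow_add h5]
      norm_num
  refine h2.trans (h1.trans ?_)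
  have h7 : 0 ≤ Real.sqrt 2 := Real.sqrt_nonneg 2
  gcongr

end Pool.Agent.Helper57.PT
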